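import Mathlib

/-!
# The Jacobian matrix of the generators of `J_{G,H}` in characteristic two

In characteristic two the rank of the Jacobian matrix `H(K_3, K_3)` is smaller than the analytic
spread of the ideal `J_{K_3, K_3}`.
-/

set_option autoImplicit false

namespace Pool.Agent.Results.MP_188fab_co.JacobianCharTwo

open MvPolynomial

section Defs

variable (F : Type) [Field F] {V W : Type} [LinearOrder V] [LinearOrder W]

/-- The edges `{i, j}`, `i < j`, of the graph `G`. -/
abbrev Edge (G : SimpleGraph V) : Type := {p : V × V // p.1 < p.2 ∧ G.Adj p.1 p.2}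

/-- The binomial `x_{i,k} x_{j,l} - x_{i,l} x_{j,k}` for an edge `{i, j}`, `i < j`, of `G` and an
edge `{k, l}`, `k < l`, of `H`. -/
noncomputable def gen (G : SimpleGraph V) (H : SimpleGraph W) (e : Edge G × Edge H) :
    MvPolynomial (V × W) F :=
  X (e.1.1.1, e.2.1.1) * X (e.1.1.2, e.2.1.2) - X (e.1.1.1, e.2.1.2) * X (e.1.1.2, e.2.1.1)

/-- The ideal `J_{G,H}`. -/
noncomputable def J (G : SimpleGraph V) (H : SimpleGraph W) : Ideal (MvPolynomial (V × W) F) :=
  Ideal.span (Set.range (gen F G H))

/-- The Jacobian matrix of the generators of `J_{G,H}`, over the field of rational functions. -/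
noncomputable def jacobian (G : SimpleGraph V) (H : SimpleGraph W) :
    Matrix (Edge G × Edge H) (V × W) (FractionRing (MvPolynomial (V × W) F)) :=
  Matrix.of fun e v => algebraMap (MvPolynomial (V × W) F) _ (pderiv v (gen F G H e))

variable {F} in
/-- The analytic spread of an ideal `I` of a polynomial ring: the Krull dimension of
`R(I) / m R(I) = ⨁ I^t / m I^t`, where `R(I) = ⨁ I^t` is the Rees algebra and `m` is the ideal
generated by the variables. -/
noncomputable def analyticSpread {σ : Type} (I : Ideal (MvPolynomial σ F)) : WithBot ℕ∞ :=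
  ringKrullDim (reesAlgebra I ⧸
    (Ideal.span (Set.range (X : σ → MvPolynomial σ F))).map
      (algebraMap (MvPolynomial σ F) (reesAlgebra I)))

end Defs

/-! ### The analytic spread of an ideal generated by algebraically independent quadrics -/

section Spread

variable {F : Type} [Field F] {σ ι : Type}

/-- The homomorphism `x ↦ x U`. -/
noncomputable def D : MvPolynomial σ F →ₐ[F] Polynomial (MvPolynomial σ F) :=
  aeval fun v => Polynomial.C (X v) * Polynomial.X

theorem D_X (v : σ) : D (X v : MvPolynomial σ F) = Polynomial.C (X v) * Polynomial.X := by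
  simp [D]

theorem coeff_mul_of_dvd {A : Type} [CommRing A] {p q : Polynomial A} {m n : ℕ}
    (hp : Polynomial.X ^ m ∣ p) (hq : Polynomial.X ^ n ∣ q) :
    (p * q).coeff (m + n) = p.coeff m * q.coeff n := by
  obtain ⟨p', rfl⟩ := hp
  obtain ⟨q', rfl⟩ := hq
  have h1 : Polynomial.X ^ m * p' * (Polynomial.X ^ n * q') =
      (p' * q') * Polynomial.X ^ (m + n) := by ring
  have h2 : Polynomial.X ^ m * p' = p' * Polynomial.X ^ m := mul_comm _ _
  have h3 : Polynomial.X ^ n * q' = q' * Polynomial.X ^ n := mul_comm _ _
  rw [h1, h2, h3, Polynomial.coeff_mul_X_pow', Polynomial.coeff_mul_X_pow',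
    Polynomial.coeff_mul_X_pow']
  simp only [le_refl, if_true, Nat.sub_self, Polynomial.mul_coeff_zero]

variable (f : ι → MvPolynomial σ F)

theorem D_dvd (hf : ∀ i, D (f i) = Polynomial.C (f i) * Polynomial.X ^ 2) {t : ℕ}
    {a : MvPolynomial σ F} (ha : a ∈ Ideal.span (Set.range f) ^ t) :
    Polynomial.X ^ (2 * t) ∣ D a := by
  have h1 : Ideal.span (Set.range f) ≤
      Ideal.comap (D : MvPolynomial σ F →ₐ[F] Polynomial (MvPolynomial σ F))
        (Ideal.span {Polynomial.X ^ 2}) := by
    rw [Ideal.span_le]
    rintro _ ⟨i, rfl⟩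
    rw [SetLike.mem_coe, Ideal.mem_comap, hf, Ideal.mem_span_singleton]
    exact Dvd.intro_left _ rfl
  have h2 := Ideal.pow_right_mono h1 t ha
  have h3 := Ideal.le_comap_pow _ _ h2
  rw [Ideal.mem_comap, Ideal.span_singleton_pow, Ideal.mem_span_singleton, ← pow_mul] at h3
  exact h3

/-- The leading form homomorphism on the Rees algebra, as a polynomial. -/
noncomputable def lam (p : Polynomial (MvPolynomial σ F)) : Polynomial (MvPolynomial σ F) :=
  ∑ t ∈ p.support, Polynomial.monomial t ((D (p.coeff t)).coeff (2 * t))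

theorem coeff_lam (p : Polynomial (MvPolynomial σ F)) (n : ℕ) :
    (lam p).coeff n = (D (p.coeff n)).coeff (2 * n) := by
  rw [lam, Polynomial.finsetSum_coeff]
  simp only [Polynomial.coeff_monomial]
  rw [Finset.sum_ite_eq']
  split_ifs with h
  · rfl
  · rw [Polynomial.notMem_support_iff.1 h]
    simp

/-- The leading form homomorphism. -/
noncomputable def lead (hf : ∀ i, D (f i) = Polynomial.C (f i) * Polynomial.X ^ 2) :
    reesAlgebra (Ideal.span (Set.range f)) →+* MvPolynomial σ F :=
  (Polynomial.evalRingHom 1).comp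
    { toFun := fun p => lam p.1
      map_one' := by
        ext1 n
        rw [coeff_lam]
        show (D ((1 : Polynomial (MvPolynomial σ F)).coeff n)).coeff (2 * n) = _
        rw [Polynomial.coeff_one]
        split_ifs with h
        · subst h; simp
        · rw [map_zero, Polynomial.coeff_zero]
      map_zero' := by
        ext1 n
        rw [coeff_lam]
        show (D ((0 : Polynomial (MvPolynomial σ F)).coeff n)).coeff (2 * n) = _
        simp
      map_add' := by
        intro p q
        ext1 n
        rw [Polynomial.coeff_add, coeff_lam, coeff_lam, coeff_lam]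
        show (D ((p.1 + q.1 : Polynomial (MvPolynomial σ F)).coeff n)).coeff (2 * n) = _
        rw [Polynomial.coeff_add, map_add, Polynomial.coeff_add]
      map_mul' := by
        intro p q
        ext1 n
        rw [Polynomial.coeff_mul, coeff_lam]
        show (D ((p.1 * q.1 : Polynomial (MvPolynomial σ F)).coeff n)).coeff (2 * n) = _
        rw [Polynomial.coeff_mul, map_sum, Polynomial.finsetSum_coeff]
        refine Finset.sum_congr rfl fun x hx => ?_
        rw [coeff_lam, coeff_lam, map_mul, ← Finset.HasAntidiagonal.mem_antidiagonal.1 hx, mul_add]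
        exact coeff_mul_of_dvd (D_dvd f hf (p.2 x.1)) (D_dvd f hf (q.2 x.2)) }

theorem lead_apply (hf : ∀ i, D (f i) = Polynomial.C (f i) * Polynomial.X ^ 2)
    (p : reesAlgebra (Ideal.span (Set.range f))) : lead f hf p = (lam p.1).eval 1 := rfl

theorem lam_monomial (t : ℕ) (a : MvPolynomial σ F) :
    lam (Polynomial.monomial t a) = Polynomial.monomial t ((D a).coeff (2 * t)) := by
  ext1 n
  rw [coeff_lam, Polynomial.coeff_monomial, Polynomial.coeff_monomial]
  split_ifs with h
  · subst h; rfl
  · rw [map_zero, Polynomial.coeff_zero]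

/-- The element `f i * T` of the Rees algebra. -/
noncomputable def el (i : ι) : reesAlgebra (Ideal.span (Set.range f)) :=
  ⟨Polynomial.monomial 1 (f i), by
    apply reesAlgebra.monomial_mem.2
    rw [pow_one]
    exact Ideal.subset_span ⟨i, rfl⟩⟩

/-- The ideal `m R(I)`. -/
noncomputable abbrev mI (I : Ideal (MvPolynomial σ F)) : Ideal (reesAlgebra I) :=
  (Ideal.span (Set.range (X : σ → MvPolynomial σ F))).map
      (algebraMap (MvPolynomial σ F) (reesAlgebra I))

theorem lead_mI (hf : ∀ i, D (f i) = Polynomial.C (f i) * Polynomial.X ^ 2) :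
    ∀ a ∈ mI (Ideal.span (Set.range f)), lead f hf a = 0 := by
  intro a ha
  have h : mI (Ideal.span (Set.range f)) ≤ RingHom.ker (lead f hf) := by
    rw [mI, Ideal.map_le_iff_le_comap, Ideal.span_le]
    rintro _ ⟨v, rfl⟩
    rw [SetLike.mem_coe, Ideal.mem_comap, RingHom.mem_ker, lead_apply]
    have : ((algebraMap (MvPolynomial σ F) (reesAlgebra (Ideal.span (Set.range f))) (X v)) :
        Polynomial (MvPolynomial σ F)) = Polynomial.monomial 0 (X v) := rfl
    rw [this, lam_monomial, D_X]
    simp
  exact h ha

theorem analyticSpread_ge [Finite ι] (hf : ∀ i, D (f i) = Polynomial.C (f i) * Polynomial.X ^ 2)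
    (hind : AlgebraicIndependent F f) :
    ((Nat.card ι : ℕ) : WithBot ℕ∞) ≤ analyticSpread (Ideal.span (Set.range f)) := by
  set I := Ideal.span (Set.range f) with hI
  -- the map from the polynomial ring
  let ψ : MvPolynomial ι F →ₐ[F] (reesAlgebra I ⧸ mI I) :=
    aeval fun i => Ideal.Quotient.mk _ (el f i)
  let L : (reesAlgebra I ⧸ mI I) →+* MvPolynomial σ F :=
    Ideal.Quotient.lift (mI I) (lead f hf) (lead_mI f hf)
  have hL : L.comp ψ.toRingHom = (aeval f : MvPolynomial ι F →ₐ[F] MvPolynomial σ F).toRingHom := by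
    apply MvPolynomial.ringHom_ext
    · intro r
      have h1 : ψ.toRingHom (C r) = Ideal.Quotient.mk _ (algebraMap F (reesAlgebra I) r) := by
        show ψ (C r) = _
        rw [← algebraMap_eq, AlgHom.commutes]
        rfl
      rw [RingHom.comp_apply, h1]
      show lead f hf _ = aeval f (C r)
      rw [lead_apply]
      have : ((algebraMap F (reesAlgebra I) r) : Polynomial (MvPolynomial σ F)) =
        Polynomial.monomial 0 (C r) := rfl
      rw [this, lam_monomial]
      have h3 : D (C r : MvPolynomial σ F) = Polynomial.C (C r) := by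
        rw [← algebraMap_eq, AlgHom.commutes]
        rfl
      rw [h3]
      simp
    · intro i
      rw [RingHom.comp_apply]
      have h1 : ψ.toRingHom (X i) = Ideal.Quotient.mk _ (el f i) := by
        show ψ (X i) = _
        simp [ψ]
      rw [h1]
      show lead f hf (el f i) = aeval f (X i)
      rw [lead_apply]
      show (lam (Polynomial.monomial 1 (f i))).eval 1 = _
      rw [lam_monomial, hf]
      simp
  have hψi : Function.Injective ψ := by
    intro a b hab
    apply hind
    have h1 := congrArg L hab
    have h2 : ∀ c, L (ψ c) = aeval f c := fun c => by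
      have := congrArg (fun g : MvPolynomial ι F →+* MvPolynomial σ F => g c) hL
      exact this
    rw [h2, h2] at h1
    exact h1
  have hconst : ∀ c : MvPolynomial σ F,
      Ideal.Quotient.mk (mI I) (algebraMap (MvPolynomial σ F) (reesAlgebra I) c) ∈ ψ.range := by
    intro c
    have h1 : c - C (constantCoeff c) ∈ Ideal.span (Set.range (X : σ → MvPolynomial σ F)) := by
      rw [← Set.image_univ, MvPolynomial.mem_ideal_span_X_image]
      intro m hm
      by_contra hcon
      push Not at hcon
      have hm0 : m = 0 := by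
        ext i
        exact hcon i (Set.mem_univ i)
      rw [mem_support_iff, hm0, coeff_sub, coeff_zero_C, constantCoeff_eq, sub_self] at hm
      exact hm rfl
    have h2 : Ideal.Quotient.mk (mI I) (algebraMap (MvPolynomial σ F) (reesAlgebra I) c) =
        algebraMap F _ (constantCoeff c) := by
      have h3 : Ideal.Quotient.mk (mI I) (algebraMap (MvPolynomial σ F) (reesAlgebra I)
          (c - C (constantCoeff c))) = 0 :=
        Ideal.Quotient.eq_zero_iff_mem.2 (Ideal.mem_map_of_mem _ h1)
      rw [map_sub, map_sub, sub_eq_zero] at h3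
      rw [h3]
      rfl
    rw [h2]
    exact ψ.range.algebraMap_mem _
  have hψs : Function.Surjective ψ := by
    intro z
    obtain ⟨⟨r, hr⟩, rfl⟩ := Ideal.Quotient.mk_surjective z
    have key : ∀ r ∈ Algebra.adjoin (MvPolynomial σ F)
        (Submodule.map (Polynomial.monomial 1 : MvPolynomial σ F →ₗ[MvPolynomial σ F] _) I :
          Set (Polynomial (MvPolynomial σ F))), ∀ hr : r ∈ reesAlgebra I,
        Ideal.Quotient.mk (mI I) ⟨r, hr⟩ ∈ ψ.range := by
      intro r hr
      induction hr using Algebra.adjoin_induction with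
      | mem x hx =>
        intro hx'
        obtain ⟨a, ha, rfl⟩ := hx
        have hspan : ∀ a ∈ I, ∀ h : Polynomial.monomial 1 a ∈ reesAlgebra I,
            Ideal.Quotient.mk (mI I) ⟨Polynomial.monomial 1 a, h⟩ ∈ ψ.range := by
          intro a ha
          induction ha using Submodule.span_induction with
          | mem x hx =>
            intro h
            obtain ⟨i, rfl⟩ := hx
            refine ⟨X i, ?_⟩
            show ψ (X i) = _
            simp only [ψ, aeval_X]
            rfl
          | zero =>
            intro h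
            have : (⟨Polynomial.monomial 1 0, h⟩ : reesAlgebra I) = 0 := by
              apply Subtype.ext
              simp
            rw [this, map_zero]
            exact ψ.range.zero_mem
          | add x y hx hy hx' hy' =>
            intro h
            have h1 : Polynomial.monomial 1 x ∈ reesAlgebra I := by
              apply reesAlgebra.monomial_mem.2; rw [pow_one]; exact hx
            have h2 : Polynomial.monomial 1 y ∈ reesAlgebra I := by
              apply reesAlgebra.monomial_mem.2; rw [pow_one]; exact hy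
            have : (⟨Polynomial.monomial 1 (x + y), h⟩ : reesAlgebra I) =
                ⟨Polynomial.monomial 1 x, h1⟩ + ⟨Polynomial.monomial 1 y, h2⟩ := by
              apply Subtype.ext
              show Polynomial.monomial 1 (x + y) = Polynomial.monomial 1 x + Polynomial.monomial 1 y
              rw [map_add]
            rw [this, map_add]
            exact ψ.range.add_mem (hx' h1) (hy' h2)
          | smul c x hx hx' =>
            intro h
            have h1 : Polynomial.monomial 1 x ∈ reesAlgebra I := by
              apply reesAlgebra.monomial_mem.2; rw [pow_one]; exact hx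
            have : (⟨Polynomial.monomial 1 (c • x), h⟩ : reesAlgebra I) =
                algebraMap (MvPolynomial σ F) (reesAlgebra I) c *
                  ⟨Polynomial.monomial 1 x, h1⟩ := by
              apply Subtype.ext
              show Polynomial.monomial 1 (c • x) = Polynomial.C c * Polynomial.monomial 1 x
              rw [Polynomial.C_mul_monomial, smul_eq_mul]
            rw [this, map_mul]
            exact ψ.range.mul_mem (hconst c) (hx' h1)
        exact hspan a ha hx'
      | algebraMap c =>
        intro h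
        exact hconst c
      | add x y hx hy hx' hy' =>
        intro h
        have h1 : x ∈ reesAlgebra I := by rw [← adjoin_monomial_eq_reesAlgebra]; exact hx
        have h2 : y ∈ reesAlgebra I := by rw [← adjoin_monomial_eq_reesAlgebra]; exact hy
        have : (⟨x + y, h⟩ : reesAlgebra I) = ⟨x, h1⟩ + ⟨y, h2⟩ := rfl
        rw [this, map_add]
        exact ψ.range.add_mem (hx' h1) (hy' h2)
      | mul x y hx hy hx' hy' =>
        intro h
        have h1 : x ∈ reesAlgebra I := by rw [← adjoin_monomial_eq_reesAlgebra]; exact hx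
        have h2 : y ∈ reesAlgebra I := by rw [← adjoin_monomial_eq_reesAlgebra]; exact hy
        have : (⟨x * y, h⟩ : reesAlgebra I) = ⟨x, h1⟩ * ⟨y, h2⟩ := rfl
        rw [this, map_mul]
        exact ψ.range.mul_mem (hx' h1) (hy' h2)
    exact key r (by rw [adjoin_monomial_eq_reesAlgebra]; exact hr) hr
  have e : MvPolynomial ι F ≃+* (reesAlgebra I ⧸ mI I) :=
    RingEquiv.ofBijective ψ.toRingHom ⟨hψi, hψs⟩
  have h1 := ringKrullDim_add_natCard_le_ringKrullDim_mvPolynomial (R := F) ι
  rw [ringKrullDim_eq_zero_of_field, zero_add] at h1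
  calc ((Nat.card ι : ℕ) : WithBot ℕ∞) ≤ ringKrullDim (MvPolynomial ι F) := h1
    _ = analyticSpread I := ringKrullDim_eq_of_ringEquiv e

end Spread

/-! ### The nine minors of order two of a generic matrix of order three -/

section Minors

variable (F : Type) [Field F]

/-- The complete graph `K_3`. -/
abbrev K3 : SimpleGraph (Fin 3) := ⊤

instance : Fintype (Edge K3) := by
  unfold Edge
  infer_instance

theorem card_edge : Fintype.card (Edge K3) = 3 := by decide

/-- the edge `{i, j}` -/
def ed (i j : Fin 3) (h : i < j) : Edge K3 := ⟨(i, j), h, h.ne⟩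

theorem gen_mem (e : Edge K3 × Edge K3) :
    gen F K3 K3 e ∈ Algebra.adjoin F (Set.range (gen F K3 K3)) :=
  Algebra.subset_adjoin ⟨e, rfl⟩

theorem adj_mem (i j : Fin 3) : (Matrix.adjugate (Matrix.mvPolynomialX (Fin 3) (Fin 3) F)) i j ∈
    Algebra.adjoin F (Set.range (gen F K3 K3)) := by
  have h01 : (0 : Fin 3) < 1 := by decide
  have h02 : (0 : Fin 3) < 2 := by decide
  have h12 : (1 : Fin 3) < 2 := by decide
  have g := gen_mem F
  rw [Matrix.adjugate_fin_three]
  fin_cases i <;> fin_cases j <;> simp [Matrix.mvPolynomialX]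
  · convert g (ed 1 2 h12, ed 1 2 h12) using 1; simp [gen, ed]; try ring
  · convert neg_mem (g (ed 0 2 h02, ed 1 2 h12)) using 1; simp [gen, ed]; try ring
  · convert g (ed 0 1 h01, ed 1 2 h12) using 1; simp [gen, ed]; try ring
  · convert neg_mem (g (ed 1 2 h12, ed 0 2 h02)) using 1; simp [gen, ed]; try ring
  · convert g (ed 0 2 h02, ed 0 2 h02) using 1; simp [gen, ed]; try ring
  · convert neg_mem (g (ed 0 1 h01, ed 0 2 h02)) using 1; simp [gen, ed]; try ring
  · convert g (ed 1 2 h12, ed 0 1 h01) using 1; simp [gen, ed]; try ring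
  · convert neg_mem (g (ed 0 2 h02, ed 0 1 h01)) using 1; simp [gen, ed]; try ring
  · convert g (ed 0 1 h01, ed 0 1 h01) using 1; simp [gen, ed]; try ring

theorem map_subtype {A : Type} [CommRing A] [Algebra F A] (S : Subalgebra F A)
    (B : Matrix (Fin 3) (Fin 3) A) (h : ∀ i j, B i j ∈ S) :
    (∀ i j, B.adjugate i j ∈ S) ∧ B.det ∈ S := by
  let B' : Matrix (Fin 3) (Fin 3) S := Matrix.of fun i j => ⟨B i j, h i j⟩
  have hB : B = (S.val : S →+* A).mapMatrix B' := by
    ext i j
    rfl
  constructor
  · intro i j
    rw [hB, ← RingHom.map_adjugate]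
    exact (B'.adjugate i j).2
  · rw [hB, ← RingHom.map_det]
    exact B'.det.2

theorem adj_adj_mem (i j : Fin 3) :
    (Matrix.adjugate (Matrix.adjugate (Matrix.mvPolynomialX (Fin 3) (Fin 3) F))) i j ∈
    Algebra.adjoin F (Set.range (gen F K3 K3)) :=
  (map_subtype F _ _ (adj_mem F)).1 i j

theorem det_adj_mem :
    (Matrix.adjugate (Matrix.mvPolynomialX (Fin 3) (Fin 3) F)).det ∈
    Algebra.adjoin F (Set.range (gen F K3 K3)) :=
  (map_subtype F _ _ (adj_mem F)).2

theorem isAlgebraic_X (v : Fin 3 × Fin 3) :
    IsAlgebraic (Algebra.adjoin F (Set.range (gen F K3 K3))) (X v : MvPolynomial (Fin 3 × Fin 3) F) := by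
  set A := Matrix.mvPolynomialX (Fin 3) (Fin 3) F with hA
  let c : Algebra.adjoin F (Set.range (gen F K3 K3)) := ⟨_, det_adj_mem F⟩
  let d : Algebra.adjoin F (Set.range (gen F K3 K3)) := ⟨_, adj_adj_mem F v.1 v.2⟩
  have hdet : A.det ≠ 0 := Matrix.det_mvPolynomialX_ne_zero (Fin 3) F
  have hc : (c : MvPolynomial (Fin 3 × Fin 3) F) = A.det ^ 2 := by
    show A.adjugate.det = _
    rw [Matrix.det_adjugate]
    rfl
  have hd : (d : MvPolynomial (Fin 3 × Fin 3) F) = A.det * X v := by
    show (A.adjugate.adjugate) v.1 v.2 = _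
    rw [Matrix.adjugate_adjugate _ (by decide)]
    simp [hA, Matrix.mvPolynomialX]
  refine ⟨Polynomial.C c * Polynomial.X ^ 2 - Polynomial.C (d ^ 2), ?_, ?_⟩
  · intro h0
    have h1 := congrArg (fun p => p.coeff 2) h0
    simp only [Polynomial.coeff_sub, Polynomial.coeff_C_mul, Polynomial.coeff_X_pow, if_true,
      mul_one, Polynomial.coeff_zero, Polynomial.coeff_C] at h1
    rw [if_neg (by decide), sub_zero] at h1
    have h2 : (c : MvPolynomial (Fin 3 × Fin 3) F) = 0 := by rw [h1]; rfl
    rw [hc] at h2
    exact hdet (pow_eq_zero_iff (two_ne_zero) |>.1 h2)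
  · rw [map_sub, map_mul, Polynomial.aeval_C, Polynomial.aeval_C, map_pow, Polynomial.aeval_X]
    show (c : MvPolynomial (Fin 3 × Fin 3) F) * X v ^ 2 -
      ((d ^ 2 : Algebra.adjoin F (Set.range (gen F K3 K3))) : MvPolynomial (Fin 3 × Fin 3) F) = 0
    have h4 : ((d ^ 2 : Algebra.adjoin F (Set.range (gen F K3 K3))) :
      MvPolynomial (Fin 3 × Fin 3) F) = (d : MvPolynomial (Fin 3 × Fin 3) F) ^ 2 := rfl
    rw [h4, hc, hd]
    ring

theorem gen_indep : AlgebraicIndependent F (gen F K3 K3) := by
  have halg : Algebra.IsAlgebraic (Algebra.adjoin F (Set.range (gen F K3 K3)))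
      (MvPolynomial (Fin 3 × Fin 3) F) := by
    constructor
    intro p
    induction p using MvPolynomial.induction_on with
    | C a =>
      have : (C a : MvPolynomial (Fin 3 × Fin 3) F) =
        algebraMap (Algebra.adjoin F (Set.range (gen F K3 K3))) _ (algebraMap F _ a) := rfl
      rw [this]
      exact isAlgebraic_algebraMap _
    | add p q hp hq => exact hp.add hq
    | mul_X p v hp => exact hp.mul (isAlgebraic_X F v)
  have h : IsTranscendenceBasis F (gen F K3 K3) := by
    refine Algebra.IsAlgebraic.isTranscendenceBasis_of_le_trdeg_of_finite F (gen F K3 K3) ?_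
    rw [MvPolynomial.trdeg_of_isDomain, Cardinal.mk_fintype, Cardinal.mk_fintype]
    simp [card_edge]
  exact h.1

theorem D_gen (e : Edge K3 × Edge K3) :
    D (gen F K3 K3 e) = Polynomial.C (gen F K3 K3 e) * Polynomial.X ^ 2 := by
  simp only [gen, map_sub, map_mul, D_X]
  ring

theorem spread_ge : (9 : WithBot ℕ∞) ≤ analyticSpread (J F K3 K3) := by
  have h := analyticSpread_ge (gen F K3 K3) (D_gen F) (gen_indep F)
  rw [Nat.card_eq_fintype_card, Fintype.card_prod, card_edge] at h
  exact h

/-- In characteristic two the vector of the variables is in the kernel of the Jacobian matrix. -/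
theorem jac_mulVec [CharP F 2] :
    (jacobian F K3 K3).mulVec (fun v => algebraMap _ _ (X v : MvPolynomial (Fin 3 × Fin 3) F)) = 0 := by
  funext e
  have hom : (gen F K3 K3 e).IsHomogeneous 2 := by
    have h := fun a b : Fin 3 × Fin 3 => (isHomogeneous_X F a).mul (isHomogeneous_X F b)
    exact (h _ _).sub (h _ _)
  have h1 := hom.sum_X_mul_pderiv
  have h2 : ((2 : ℕ) : MvPolynomial (Fin 3 × Fin 3) F) = 0 := CharP.cast_eq_zero _ 2
  rw [nsmul_eq_mul, h2, zero_mul] at h1
  rw [Matrix.mulVec, dotProduct, Pi.zero_apply]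
  have h3 := congrArg (algebraMap (MvPolynomial (Fin 3 × Fin 3) F)
    (FractionRing (MvPolynomial (Fin 3 × Fin 3) F))) h1
  rw [map_sum, map_zero] at h3
  rw [← h3]
  refine Finset.sum_congr rfl fun v _ => ?_
  rw [map_mul, mul_comm]
  rfl

theorem rank_lt [CharP F 2] : (jacobian F K3 K3).rank < 9 := by
  set M := jacobian F K3 K3 with hM
  have h1 := LinearMap.finrank_range_add_finrank_ker M.mulVecLin
  have h2 : Module.finrank (FractionRing (MvPolynomial (Fin 3 × Fin 3) F))
      (Fin 3 × Fin 3 → FractionRing (MvPolynomial (Fin 3 × Fin 3) F)) = 9 := by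
    rw [Module.finrank_fintype_fun_eq_card]
    rfl
  rw [h2] at h1
  have h3 : 0 < Module.finrank (FractionRing (MvPolynomial (Fin 3 × Fin 3) F))
      (LinearMap.ker M.mulVecLin) := by
    rw [Module.finrank_pos_iff]
    have hx : M.mulVecLin (fun v => algebraMap (MvPolynomial (Fin 3 × Fin 3) F)
        (FractionRing (MvPolynomial (Fin 3 × Fin 3) F)) (X v)) = 0 := by
      rw [Matrix.mulVecLin_apply]
      exact jac_mulVec F
    refine ⟨⟨⟨_, LinearMap.mem_ker.2 hx⟩, 0, fun h => ?_⟩⟩
    have h4 := congrArg (fun g => (g : Fin 3 × Fin 3 → _) (0, 0)) (congrArg Subtype.val h)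
    have h5 : algebraMap (MvPolynomial (Fin 3 × Fin 3) F)
      (FractionRing (MvPolynomial (Fin 3 × Fin 3) F)) (X (0, 0)) = 0 := h4
    rw [map_eq_zero_iff _ (IsFractionRing.injective _ _)] at h5
    exact X_ne_zero _ h5
  have h4 : M.rank = Module.finrank (FractionRing (MvPolynomial (Fin 3 × Fin 3) F))
    (LinearMap.range M.mulVecLin) := rfl
  omega

end Minors

/-- **Q1(b) fails for every field of characteristic two.** For `G = H = K_3` the rank of the
Jacobian matrix of the generators of `J_{G,H}` is smaller than the analytic spread of `J_{G,H}`. -/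
theorem result (F : Type) [Field F] [CharP F 2] :
    ((jacobian F (⊤ : SimpleGraph (Fin 3)) (⊤ : SimpleGraph (Fin 3))).rank : WithBot ℕ∞) <
      analyticSpread (J F (⊤ : SimpleGraph (Fin 3)) (⊤ : SimpleGraph (Fin 3))) := by
  refine lt_of_lt_of_le ?_ (spread_ge F)
  exact_mod_cast rank_lt F

end Pool.Agent.Results.MP_188fab_co.JacobianCharTwo
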