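import Mathlib

/-!
# Quadratic forms in characteristic two with a non-representable algebraic matroid

Ten quadratic forms in four variables over any field of characteristic two with more than two
elements, whose algebraic matroid is not representable over any field. The contraction by the
form `w ^ 2` contains the configuration of the Pappus theorem without its conclusion.
-/

set_option autoImplicit false

namespace Pool.Agent.Results.MP_188fab_co.QuadricsNonPappus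

open MvPolynomial

universe u v w

/-! ### The Pappus theorem in a vector space, modulo a vector `W` -/

section Pappus

variable {K : Type u} {U : Type v} [Field K] [AddCommGroup U] [Module K U]

/-- Independence of three vectors. -/
def LI3 (K : Type u) [Field K] {U : Type v} [AddCommGroup U] [Module K U] (a b c : U) : Prop :=
  ∀ r s t : K, r • a + s • b + t • c = 0 → r = 0 ∧ s = 0 ∧ t = 0

/-- Independence of four vectors. -/
def LI4 (K : Type u) [Field K] {U : Type v} [AddCommGroup U] [Module K U] (a b c d : U) : Prop :=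
  ∀ r s t q : K, r • a + s • b + t • c + q • d = 0 → r = 0 ∧ s = 0 ∧ t = 0 ∧ q = 0

theorem li4_iff (a b c d : U) : LinearIndependent K ![a, b, c, d] ↔ LI4 K a b c d := by
  rw [Fintype.linearIndependent_iff]
  constructor
  · intro h r s t q h0
    have h1 := h ![r, s, t, q] (by simpa [Fin.sum_univ_succ, add_assoc] using h0)
    exact ⟨h1 0, h1 1, h1 2, h1 3⟩
  · intro h g hg i
    have h1 := h (g 0) (g 1) (g 2) (g 3) (by simpa [Fin.sum_univ_succ, add_assoc] using hg)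
    fin_cases i
    · exact h1.1
    · exact h1.2.1
    · exact h1.2.2.1
    · exact h1.2.2.2

theorem LI4.abc {a b c d : U} (h : LI4 K a b c d) : LI3 K a b c := fun r s t h0 => by
  have := h r s t 0 (by rw [zero_smul, add_zero, h0])
  exact ⟨this.1, this.2.1, this.2.2.1⟩

theorem LI4.acd {a b c d : U} (h : LI4 K a b c d) : LI3 K a c d := fun r s t h0 => by
  have := h r 0 s t (by rw [zero_smul, add_zero, h0])
  exact ⟨this.1, this.2.2.1, this.2.2.2⟩

theorem LI4.abd {a b c d : U} (h : LI4 K a b c d) : LI3 K a b d := fun r s t h0 => by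
  have := h r s 0 t (by rw [zero_smul, add_zero, h0])
  exact ⟨this.1, this.2.1, this.2.2.2⟩

theorem exists_eq {a b c d : U} (h3 : LI3 K a b c) (h4 : ¬ LI4 K a b c d) :
    ∃ r s t : K, d = r • a + s • b + t • c := by
  unfold LI4 at h4
  push Not at h4
  obtain ⟨r, s, t, q, h0, hne⟩ := h4
  have hq : q ≠ 0 := by
    rintro rfl
    rw [zero_smul, add_zero] at h0
    obtain ⟨h1, h2, h3⟩ := h3 r s t h0
    exact hne h1 h2 h3 rfl
  refine ⟨-(q⁻¹ * r), -(q⁻¹ * s), -(q⁻¹ * t), ?_⟩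
  have h1 : q • d = -(r • a + s • b + t • c) := by
    rw [eq_neg_iff_add_eq_zero, add_comm]; exact h0
  have h2 : d = q⁻¹ • (q • d) := by rw [smul_smul, inv_mul_cancel₀ hq, one_smul]
  rw [h2, h1]
  module

/-- The Pappus theorem modulo `W`. -/
theorem pappus {W X₁ X₂ X₃ Y₁ Y₂ Y₃ P Q R : U}
    (i1 : LI4 K W X₁ X₂ Y₁) (i2 : LI3 K W X₁ P) (i3 : LI3 K W Y₁ Y₂) (i4 : LI3 K W X₂ Y₃)
    (i5 : LI3 K W X₂ Q) (i6 : LI3 K W X₃ Y₂) (i6' : LI3 K W X₃ Y₁) (i7 : LI3 K W P Q)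
    (i8 : LI3 K W Y₂ P) (d1 : ¬ LI4 K W X₁ X₂ X₃) (d2 : ¬ LI4 K W Y₁ Y₂ Y₃)
    (d3 : ¬ LI4 K W X₁ P Y₂) (d4 : ¬ LI4 K W X₂ Y₁ P) (d5 : ¬ LI4 K W X₂ Y₃ Q)
    (d6 : ¬ LI4 K W X₃ Y₂ Q) (d7 : ¬ LI4 K W X₃ Y₁ R) (d8 : ¬ LI4 K W P Q R) :
    ¬ LI4 K W X₁ Y₃ R := by
  intro hfin
  obtain ⟨x0, s, t, hX3⟩ := exists_eq i1.abc d1
  obtain ⟨p0, α, β, hP⟩ := exists_eq i1.acd d4
  obtain ⟨y0, γ, δ, hY2⟩ := exists_eq i2 d3
  obtain ⟨z0, ε, ζ, hY3⟩ := exists_eq i3 d2
  obtain ⟨q0, η, θ, hQ⟩ := exists_eq i4 d5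
  obtain ⟨q1, κ, l, hQ'⟩ := exists_eq i6 d6
  obtain ⟨r0, μ, ν, hR⟩ := exists_eq i6' d7
  obtain ⟨r1, ρ, σ, hR'⟩ := exists_eq i7 d8
  have hγ : γ ≠ 0 := by
    rintro rfl
    have := i8 y0 (-1) δ (by rw [hY2]; module)
    exact one_ne_zero (neg_eq_zero.1 this.2.1)
  have hθ : θ ≠ 0 := by
    rintro rfl
    have := i5 q0 η (-1) (by rw [hQ]; module)
    exact one_ne_zero (neg_eq_zero.1 this.2.2)
  -- coordinates
  have eY2 : Y₂ = (y0 + δ * p0) • W + γ • X₁ + (δ * α) • X₂ + (δ * β) • Y₁ := by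
    rw [hY2, hP]; module
  have eY3 : Y₃ = (z0 + ζ * (y0 + δ * p0)) • W + (ζ * γ) • X₁ + (ζ * (δ * α)) • X₂ +
      (ε + ζ * (δ * β)) • Y₁ := by
    rw [hY3, eY2]; module
  have eQ' : Q = (q1 + κ * x0 + l * (y0 + δ * p0)) • W + (κ * s + l * γ) • X₁ +
      (κ * t + l * (δ * α)) • X₂ + (l * (δ * β)) • Y₁ := by
    rw [hQ', eY2, hX3]; module
  have eR : R = (r0 + μ * x0) • W + (μ * s) • X₁ + (μ * t) • X₂ + ν • Y₁ := by
    rw [hR, hX3]; module
  -- comparison of coefficients for `Q`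
  have c1 := i1 ((q0 + θ * (z0 + ζ * (y0 + δ * p0))) - (q1 + κ * x0 + l * (y0 + δ * p0)))
    (θ * (ζ * γ) - (κ * s + l * γ))
    (η + θ * (ζ * (δ * α)) - (κ * t + l * (δ * α)))
    (θ * (ε + ζ * (δ * β)) - l * (δ * β)) (by
      have h : q0 • W + η • X₂ + θ • Y₃ - Q = 0 := by rw [← hQ, sub_self]
      rw [← h, eQ', eY3]
      module)
  -- comparison of coefficients for `R`
  have c2 := i1 ((r0 + μ * x0) - (r1 + ρ * p0 + σ * (q1 + κ * x0 + l * (y0 + δ * p0))))
    (μ * s - σ * (κ * s + l * γ))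
    (μ * t - (ρ * α + σ * (κ * t + l * (δ * α))))
    (ν - (ρ * β + σ * (l * (δ * β)))) (by
      have h : R - (r1 • W + ρ • P + σ • Q) = 0 := by rw [← hR', sub_self]
      rw [← h, eR, eQ', hP]
      module)
  obtain ⟨-, e1, -, e3⟩ := c1
  obtain ⟨-, f1, f2, f3⟩ := c2
  have key : (μ * t) * (ε + ζ * (δ * β)) - ν * (ζ * (δ * α)) = 0 := by
    have h : γ * θ * ((μ * t) * (ε + ζ * (δ * β)) - ν * (ζ * (δ * α))) = 0 := by
      linear_combination (γ * μ * t) * e3 - (δ * β * (μ - σ * κ) * t) * e1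
        + (-(δ * β * t * κ)) * f1 + (β * δ * ζ * θ * γ) * f2 - (α * δ * ζ * θ * γ) * f3
    exact (mul_eq_zero.1 h).resolve_left (mul_ne_zero hγ hθ)
  have k1 := hfin ((μ * t) * (z0 + ζ * (y0 + δ * p0)) - (ζ * (δ * α)) * (r0 + μ * x0))
    ((μ * t) * (ζ * γ) - (ζ * (δ * α)) * (μ * s)) (-(μ * t)) (ζ * (δ * α)) (by
      rw [eR, eY3]
      have h : ((ζ * (δ * α)) * ν - (μ * t) * (ε + ζ * (δ * β))) • Y₁ = 0 := by
        rw [show (ζ * (δ * α)) * ν - (μ * t) * (ε + ζ * (δ * β)) = 0 by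
          linear_combination -key, zero_smul]
      rw [← h]
      module)
  have k2 := hfin (ν * (z0 + ζ * (y0 + δ * p0)) - (ε + ζ * (δ * β)) * (r0 + μ * x0))
    (ν * (ζ * γ) - (ε + ζ * (δ * β)) * (μ * s)) (-ν) (ε + ζ * (δ * β)) (by
      rw [eR, eY3]
      have h : ((ε + ζ * (δ * β)) * (μ * t) - ν * (ζ * (δ * α))) • X₂ = 0 := by
        rw [show (ε + ζ * (δ * β)) * (μ * t) - ν * (ζ * (δ * α)) = 0 by
          linear_combination key, zero_smul]
      rw [← h]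
      module)
  have k3 := hfin (z0 + ζ * (y0 + δ * p0)) (ζ * γ) (-1) 0 (by
    rw [eY3, k1.2.2.2, k2.2.2.2]
    module)
  exact one_ne_zero (neg_eq_zero.1 k3.2.2.1)

end Pappus

/-! ### The ten forms -/

section Forms

variable {F : Type w} [Field F]

/-- The ten quadratic forms in the variables `x, y, z, w = X 0, X 1, X 2, X 3`. -/
noncomputable def form (a : F) : Fin 10 → MvPolynomial (Fin 4) F :=
  ![X 3 ^ 2,
    X 3 * (X 2 + C a * X 0),
    X 3 * (X 2 + X 0),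
    X 2 ^ 2 + X 3 * X 0,
    X 3 * (X 2 + X 1),
    X 3 * (X 2 + C a * X 1),
    X 3 * X 2 + C a ^ 2 * X 1 ^ 2,
    X 3 * (X 0 - X 1),
    X 3 * X 0 - C a ^ 2 * X 1 ^ 2,
    X 3 * X 0 - X 1 ^ 2]

theorem form_homogeneous (a : F) (i : Fin 10) : (form a i).IsHomogeneous 2 := by
  have h := fun (i j : Fin 4) => (isHomogeneous_X F i).mul (isHomogeneous_X F j)
  have h2 := fun (i : Fin 4) => (isHomogeneous_X F i).pow 2
  have hC := fun (i : Fin 4) => (isHomogeneous_C (Fin 4) a).mul (isHomogeneous_X F i)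
  have hC2 := fun (i : Fin 4) => ((isHomogeneous_C (Fin 4) a).pow 2).mul ((isHomogeneous_X F i).pow 2)
  simp only [zero_add, zero_mul, one_mul] at h h2 hC hC2
  fin_cases i
  · exact h2 3
  · exact (isHomogeneous_X F 3).mul ((isHomogeneous_X F 2).add (hC 0))
  · exact (isHomogeneous_X F 3).mul ((isHomogeneous_X F 2).add (isHomogeneous_X F 0))
  · exact (h2 2).add (h 3 0)
  · exact (isHomogeneous_X F 3).mul ((isHomogeneous_X F 2).add (isHomogeneous_X F 1))
  · exact (isHomogeneous_X F 3).mul ((isHomogeneous_X F 2).add (hC 1))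
  · exact (h 3 2).add (hC2 1)
  · exact (isHomogeneous_X F 3).mul ((isHomogeneous_X F 0).sub (isHomogeneous_X F 1))
  · exact (h 3 0).sub (hC2 1)
  · exact (h 3 0).sub (h2 1)

theorem form_ne_zero {a : F} (ha0 : a ≠ 0) (i : Fin 10) : form a i ≠ 0 := by
  have h : ∃ c : Fin 4 → F, eval c (form a i) ≠ 0 := by
    fin_cases i
    · exact ⟨![0, 0, 0, 1], by simp [form]⟩
    · exact ⟨![0, 0, 1, 1], by simp [form]⟩
    · exact ⟨![0, 0, 1, 1], by simp [form]⟩
    · exact ⟨![0, 0, 1, 0], by simp [form]⟩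
    · exact ⟨![0, 0, 1, 1], by simp [form]⟩
    · exact ⟨![0, 0, 1, 1], by simp [form]⟩
    · exact ⟨![0, 0, 1, 1], by simp [form]⟩
    · exact ⟨![1, 0, 0, 1], by simp [form]⟩
    · exact ⟨![1, 0, 0, 1], by simp [form]⟩
    · exact ⟨![1, 0, 0, 1], by simp [form]⟩
  obtain ⟨c, hc⟩ := h
  intro h0
  rw [h0, map_zero] at hc
  exact hc rfl

theorem indep_of {f : Fin 4 → MvPolynomial (Fin 4) F}
    (h : ∀ i, IsAlgebraic (Algebra.adjoin F (Set.range f)) (X i : MvPolynomial (Fin 4) F)) :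
    AlgebraicIndependent F f := by
  have halg : Algebra.IsAlgebraic (Algebra.adjoin F (Set.range f))
      (MvPolynomial (Fin 4) F) := by
    constructor
    intro p
    induction p using MvPolynomial.induction_on with
    | C a =>
      have : (C a : MvPolynomial (Fin 4) F) =
        algebraMap (Algebra.adjoin F (Set.range f)) _ (algebraMap F _ a) := rfl
      rw [this]
      exact isAlgebraic_algebraMap _
    | add p q hp hq => exact hp.add hq
    | mul_X p v hp => exact hp.mul (h v)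
  refine (Algebra.IsAlgebraic.isTranscendenceBasis_of_lift_le_trdeg_of_finite F f ?_).1
  rw [MvPolynomial.trdeg_of_isDomain]
  simp

theorem quad_alg {R A : Type*} [CommRing R] [IsDomain R] [CommRing A] [IsDomain A] [Algebra R A]
    {y c w q : A} (hc : IsAlgebraic R c) (hw : IsAlgebraic R w) (hq : IsAlgebraic R q)
    (c0 : c ≠ 0) (h : c * y ^ 2 - w * y - q = 0) : IsAlgebraic R y := by
  have key : IsAlgebraic (Subalgebra.algebraicClosure R A) y := by
    refine ⟨Polynomial.C (⟨c, hc⟩ : Subalgebra.algebraicClosure R A) * Polynomial.X ^ 2 -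
      Polynomial.C (⟨w, hw⟩ : Subalgebra.algebraicClosure R A) * Polynomial.X -
      Polynomial.C (⟨q, hq⟩ : Subalgebra.algebraicClosure R A), ?_, ?_⟩
    · intro h0
      have h1 := congrArg (fun p => Polynomial.coeff p 2) h0
      simp [Polynomial.coeff_X, Polynomial.coeff_C] at h1
      exact c0 (congrArg Subtype.val h1)
    · rw [map_sub, map_sub, map_mul, map_mul, Polynomial.aeval_C, Polynomial.aeval_C,
          Polynomial.aeval_C, map_pow, Polynomial.aeval_X]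
      exact h
  exact key.restrictScalars R

abbrev A4 (F : Type w) [Field F] := MvPolynomial (Fin 4) F

variable {B : Subalgebra F (A4 F)}

theorem cancelX {i : Fin 4} {p : A4 F} (hi : IsAlgebraic B (X i : A4 F))
    (h : IsAlgebraic B (X i * p)) : IsAlgebraic B p :=
  IsAlgebraic.of_mul (mem_nonZeroDivisors_of_ne_zero (X_ne_zero i)) hi h

theorem algC (c : F) : IsAlgebraic B (C c : A4 F) := by
  have : (C c : A4 F) = algebraMap B _ (algebraMap F _ c) := rfl
  rw [this]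
  exact isAlgebraic_algebraMap _

theorem cancelC {c : F} (hc : c ≠ 0) {p : A4 F}
    (h : IsAlgebraic B (C c * p)) : IsAlgebraic B p :=
  IsAlgebraic.of_mul (mem_nonZeroDivisors_of_ne_zero (by rwa [Ne, C_eq_zero])) (algC c) h

theorem ind {a : F} (e : Fin 4 → Fin 10)
    (H : ∀ B : Subalgebra F (A4 F), (∀ j, IsAlgebraic B (form a (e j))) →
      ∀ i, IsAlgebraic B (X i : A4 F)) : AlgebraicIndependent F (form a ∘ e) := by
  apply indep_of
  apply H
  intro j
  exact isAlgebraic_algebraMap (R := Algebra.adjoin F (Set.range (form a ∘ e)))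
    (⟨_, Algebra.subset_adjoin ⟨j, rfl⟩⟩)

theorem all4 {P : Fin 4 → Prop} (h0 : P 0) (h1 : P 1) (h2 : P 2) (h3 : P 3) : ∀ i, P i := by
  intro i
  fin_cases i
  · exact h0
  · exact h1
  · exact h2
  · exact h3

theorem alg_congr {p q : A4 F} (h : IsAlgebraic B p) (e : p = q) : IsAlgebraic B q := e ▸ h

section Sets

variable {a : F}

/-- `w` is algebraic -/
theorem hw (h : IsAlgebraic B (form a 0)) : IsAlgebraic B (X 3 : A4 F) :=
  IsAlgebraic.of_pow (n := 2) (by norm_num) h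

theorem hxz (ha1 : a ≠ 1) (h0 : IsAlgebraic B (form a 0)) (h1 : IsAlgebraic B (form a 1))
    (h2 : IsAlgebraic B (form a 2)) :
    IsAlgebraic B (X 0 : A4 F) ∧ IsAlgebraic B (X 2 : A4 F) := by
  have g1 : IsAlgebraic B (X 2 + C a * X 0 : A4 F) := cancelX (hw h0) h1
  have g2 : IsAlgebraic B (X 2 + X 0 : A4 F) := cancelX (hw h0) h2
  have g3 : IsAlgebraic B (X 0 : A4 F) := by
    refine cancelC (sub_ne_zero.2 ha1) (alg_congr (g1.sub g2) ?_)
    rw [C_sub, C_1]; ring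
  exact ⟨g3, alg_congr (g2.sub g3) (by ring)⟩

theorem hyz (ha1 : a ≠ 1) (h0 : IsAlgebraic B (form a 0)) (h1 : IsAlgebraic B (form a 4))
    (h2 : IsAlgebraic B (form a 5)) :
    IsAlgebraic B (X 1 : A4 F) ∧ IsAlgebraic B (X 2 : A4 F) := by
  have g1 : IsAlgebraic B (X 2 + X 1 : A4 F) := cancelX (hw h0) h1
  have g2 : IsAlgebraic B (X 2 + C a * X 1 : A4 F) := cancelX (hw h0) h2
  have g3 : IsAlgebraic B (X 1 : A4 F) := by
    refine cancelC (sub_ne_zero.2 ha1) (alg_congr (g2.sub g1) ?_)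
    rw [C_sub, C_1]; ring
  exact ⟨g3, alg_congr (g1.sub g3) (by ring)⟩

theorem s1 (ha1 : a ≠ 1) : AlgebraicIndependent F (form a ∘ ![0, 1, 2, 4]) := by
  refine ind _ fun B h => ?_
  obtain ⟨hx, hz⟩ := hxz ha1 (h 0) (h 1) (h 2)
  have g : IsAlgebraic B (X 2 + X 1 : A4 F) := cancelX (hw (h 0)) (h 3)
  exact all4 hx (alg_congr (g.sub hz) (by ring)) hz (hw (h 0))

theorem s2 (ha1 : a ≠ 1) : AlgebraicIndependent F (form a ∘ ![0, 1, 7, 2]) := by
  refine ind _ fun B h => ?_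
  obtain ⟨hx, hz⟩ := hxz ha1 (h 0) (h 1) (h 3)
  have g : IsAlgebraic B (X 0 - X 1 : A4 F) := cancelX (hw (h 0)) (h 2)
  exact all4 hx (alg_congr (hx.sub g) (by ring)) hz (hw (h 0))

theorem s3 (ha0 : a ≠ 0) (ha1 : a ≠ 1) : AlgebraicIndependent F (form a ∘ ![0, 4, 5, 1]) := by
  refine ind _ fun B h => ?_
  obtain ⟨hy, hz⟩ := hyz ha1 (h 0) (h 1) (h 2)
  have g : IsAlgebraic B (X 2 + C a * X 0 : A4 F) := cancelX (hw (h 0)) (h 3)
  have hx : IsAlgebraic B (X 0 : A4 F) := cancelC ha0 (alg_congr (g.sub hz) (by ring))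
  exact all4 hx hy hz (hw (h 0))

theorem s4 (ha0 : a ≠ 0) (ha1 : a ≠ 1) : AlgebraicIndependent F (form a ∘ ![0, 2, 6, 1]) := by
  refine ind _ fun B h => ?_
  obtain ⟨hx, hz⟩ := hxz ha1 (h 0) (h 3) (h 1)
  have hw' := hw (h 0)
  have g : IsAlgebraic B (X 3 * X 2 + C a ^ 2 * X 1 ^ 2 : A4 F) := h 2
  have g2 : IsAlgebraic B (X 1 ^ 2 : A4 F) :=
    cancelC (pow_ne_zero 2 ha0) (alg_congr (g.sub (hw'.mul hz)) (by rw [C_pow]; ring))
  exact all4 hx (g2.of_pow (by norm_num)) hz hw'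

theorem s5 (ha0 : a ≠ 0) (ha1 : a ≠ 1) : AlgebraicIndependent F (form a ∘ ![0, 2, 8, 1]) := by
  refine ind _ fun B h => ?_
  obtain ⟨hx, hz⟩ := hxz ha1 (h 0) (h 3) (h 1)
  have hw' := hw (h 0)
  have g : IsAlgebraic B (X 3 * X 0 - C a ^ 2 * X 1 ^ 2 : A4 F) := h 2
  have g2 : IsAlgebraic B (X 1 ^ 2 : A4 F) :=
    cancelC (pow_ne_zero 2 ha0) (alg_congr ((hw'.mul hx).sub g) (by rw [C_pow]; ring))
  exact all4 hx (g2.of_pow (by norm_num)) hz hw'

theorem s6 (ha1 : a ≠ 1) : AlgebraicIndependent F (form a ∘ ![0, 3, 5, 4]) := by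
  refine ind _ fun B h => ?_
  obtain ⟨hy, hz⟩ := hyz ha1 (h 0) (h 3) (h 2)
  have hw' := hw (h 0)
  have g : IsAlgebraic B (X 2 ^ 2 + X 3 * X 0 : A4 F) := h 1
  have hx : IsAlgebraic B (X 0 : A4 F) := cancelX hw' (alg_congr (g.sub (hz.pow 2)) (by ring))
  exact all4 hx hy hz hw'

theorem s7 (ha0 : a ≠ 0) : AlgebraicIndependent F (form a ∘ ![0, 7, 8, 4]) := by
  refine ind _ fun B h => ?_
  have hw' := hw (h 0)
  have g : IsAlgebraic B (X 0 - X 1 : A4 F) := cancelX hw' (h 1)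
  have g2 : IsAlgebraic B (X 3 * X 0 - C a ^ 2 * X 1 ^ 2 : A4 F) := h 2
  have hy : IsAlgebraic B (X 1 : A4 F) := by
    refine quad_alg ((algC a).pow 2) hw' ((hw'.mul g).sub g2) ?_ (by ring)
    exact pow_ne_zero 2 (by rwa [Ne, C_eq_zero])
  have hx : IsAlgebraic B (X 0 : A4 F) := alg_congr (g.add hy) (by ring)
  have g3 : IsAlgebraic B (X 2 + X 1 : A4 F) := cancelX hw' (h 3)
  exact all4 hx hy (alg_congr (g3.sub hy) (by ring)) hw'

theorem s8 (ha1 : a ≠ 1) : AlgebraicIndependent F (form a ∘ ![0, 5, 7, 2]) := by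
  refine ind _ fun B h => ?_
  have hw' := hw (h 0)
  have g1 : IsAlgebraic B (X 2 + C a * X 1 : A4 F) := cancelX hw' (h 1)
  have g2 : IsAlgebraic B (X 0 - X 1 : A4 F) := cancelX hw' (h 2)
  have g3 : IsAlgebraic B (X 2 + X 0 : A4 F) := cancelX hw' (h 3)
  have hy : IsAlgebraic B (X 1 : A4 F) := by
    refine cancelC (sub_ne_zero.2 ha1) (alg_congr (g1.sub (g3.sub g2)) ?_)
    rw [C_sub, C_1]; ring
  have hx : IsAlgebraic B (X 0 : A4 F) := alg_congr (g2.add hy) (by ring)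
  exact all4 hx hy (alg_congr (g3.sub hx) (by ring)) hw'

theorem s9 (ha0 : a ≠ 0) (ha1 : a ≠ 1) : AlgebraicIndependent F (form a ∘ ![0, 1, 6, 9]) := by
  refine ind _ fun B h => ?_
  have hw' := hw (h 0)
  have g1 : IsAlgebraic B (X 3 * (X 2 + C a * X 0) : A4 F) := h 1
  have g2 : IsAlgebraic B (X 3 * X 2 + C a ^ 2 * X 1 ^ 2 : A4 F) := h 2
  have g3 : IsAlgebraic B (X 3 * X 0 - X 1 ^ 2 : A4 F) := h 3
  have g4 : IsAlgebraic B (X 1 ^ 2 : A4 F) := by
    refine cancelC (c := a * (1 - a)) (mul_ne_zero ha0 (sub_ne_zero.2 (Ne.symm ha1)))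
      (alg_congr ((g1.sub g2).sub ((algC a).mul g3)) ?_)
    rw [C_mul, C_sub, C_1]; ring
  have hy : IsAlgebraic B (X 1 : A4 F) := g4.of_pow (by norm_num)
  have hx : IsAlgebraic B (X 0 : A4 F) := cancelX hw' (alg_congr (g3.add g4) (by ring))
  have g5 : IsAlgebraic B (X 2 + C a * X 0 : A4 F) := cancelX hw' g1
  exact all4 hx hy (alg_congr (g5.sub ((algC a).mul hx)) (by ring)) hw'

/-! ### The dependent sets -/

theorem not_indep {e : Fin 4 → Fin 10} (p : MvPolynomial (Fin 4) F)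
    (h : aeval (form a ∘ e) p = 0) (c : Fin 4 → F) (hc : eval c p ≠ 0) :
    ¬ AlgebraicIndependent F (form a ∘ e) := by
  intro hi
  apply hc
  rw [hi (h.trans (map_zero _).symm), map_zero]

theorem t1 (ha1 : a ≠ 1) : ¬ AlgebraicIndependent F (form a ∘ ![0, 1, 2, 3]) := by
  refine not_indep ((C a - 1) ^ 2 * X 0 * X 3 - (X 1 - C a * X 2) ^ 2 -
    (C a - 1) * X 0 * (X 1 - X 2)) ?_ ![0, 1, 0, 0] ?_
  · simp [form]
    ring
  · simp

theorem t2 (ha1 : a ≠ 1) : ¬ AlgebraicIndependent F (form a ∘ ![0, 4, 5, 6]) := by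
  refine not_indep ((C a - 1) ^ 2 * X 0 * X 3 - (C a - 1) * X 0 * (C a * X 1 - X 2) -
    C a ^ 2 * (X 2 - X 1) ^ 2) ?_ ![1, 0, 0, 1] ?_
  · simp [form]
    ring
  · simp [sub_ne_zero.2 ha1]

theorem t3 (ha0 : a ≠ 0) : ¬ AlgebraicIndependent F (form a ∘ ![0, 1, 7, 5]) := by
  refine not_indep (X 1 - X 3 - C a * X 2) ?_ ![0, 1, 0, 0] ?_
  · simp [form]
    ring
  · simp

theorem t4 : ¬ AlgebraicIndependent F (form a ∘ ![0, 2, 4, 7]) := by
  refine not_indep (X 1 - X 2 - X 3) ?_ ![0, 1, 0, 0] ?_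
  · simp [form]
    ring
  · simp

theorem t5 : ¬ AlgebraicIndependent F (form a ∘ ![0, 2, 6, 8]) := by
  refine not_indep (X 1 - X 2 - X 3) ?_ ![0, 1, 0, 0] ?_
  · simp [form]
    ring
  · simp

theorem two_eq_zero [CharP F 2] : (2 : A4 F) = 0 := by
  have := CharP.cast_eq_zero (A4 F) 2
  exact_mod_cast this

theorem t6 [CharP F 2] : ¬ AlgebraicIndependent F (form a ∘ ![0, 3, 5, 8]) := by
  refine not_indep (X 0 * X 1 - X 2 ^ 2 - X 0 * X 3) ?_ ![0, 0, 1, 0] ?_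
  · have h2 := two_eq_zero (F := F)
    simp [form]
    linear_combination (-(X 3 ^ 2 * C a * X 1 * X 2)) * h2
  · simp

theorem t7 [CharP F 2] : ¬ AlgebraicIndependent F (form a ∘ ![0, 3, 4, 9]) := by
  refine not_indep (X 0 * X 1 - X 2 ^ 2 - X 0 * X 3) ?_ ![0, 0, 1, 0] ?_
  · have h2 := two_eq_zero (F := F)
    simp [form]
    linear_combination (-(X 3 ^ 2 * X 1 * X 2)) * h2
  · simp

theorem t8 (ha0 : a ≠ 0) : ¬ AlgebraicIndependent F (form a ∘ ![0, 7, 8, 9]) := by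
  refine not_indep (((C a ^ 2 - 1) * (X 3 - X 1) + (X 3 - X 2)) ^ 2 -
    (C a ^ 2 - 1) * X 0 * (X 3 - X 2)) ?_ ![0, 0, 0, 1] ?_
  · simp [form]
    ring
  · simp [ha0]

end Sets

end Forms

/-! ### The result -/

/-- Over every field `F` of characteristic two with an element `a ≠ 0, 1` there are ten nonzero
quadratic forms in four variables whose algebraic matroid over `F` is not represented by any
vectors over any field. -/
theorem result (F : Type w) [Field F] [CharP F 2] (a : F) (ha0 : a ≠ 0) (ha1 : a ≠ 1) :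
    ∃ g : Fin 10 → MvPolynomial (Fin 4) F, (∀ i, (g i).IsHomogeneous 2 ∧ g i ≠ 0) ∧
      ∀ (K : Type u) [Field K] (U : Type v) [AddCommGroup U] [Module K U] (v : Fin 10 → U),
        ¬ ∀ S : Set (Fin 10), (AlgebraicIndependent F (fun i : S => g i) ↔
          LinearIndependent K (fun i : S => v i)) := by
  refine ⟨form a, fun i => ⟨form_homogeneous a i, form_ne_zero ha0 i⟩, ?_⟩
  intro K _ U _ _ v h
  have key : ∀ e : Fin 4 → Fin 10, Function.Injective e →
      (AlgebraicIndependent F (form a ∘ e) ↔ LI4 K (v (e 0)) (v (e 1)) (v (e 2)) (v (e 3))) := by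
    intro e he
    rw [← li4_iff]
    have h1 : (![v (e 0), v (e 1), v (e 2), v (e 3)] : Fin 4 → U) = v ∘ e := by
      funext i
      fin_cases i <;> rfl
    rw [h1]
    have h2 := h (Set.range e)
    rw [← algebraicIndependent_equiv (Equiv.ofInjective e he),
      ← linearIndependent_equiv (Equiv.ofInjective e he)] at h2
    exact h2
  have inj : ∀ e : Fin 4 → Fin 10, (∀ i j, e i = e j → i = j) → Function.Injective e :=
    fun e he i j hij => he i j hij
  have I1 := (key ![0, 1, 2, 4] (inj _ (by decide))).1 (s1 ha1)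
  have I2 := (key ![0, 1, 7, 2] (inj _ (by decide))).1 (s2 ha1)
  have I3 := (key ![0, 4, 5, 1] (inj _ (by decide))).1 (s3 ha0 ha1)
  have I4 := (key ![0, 2, 6, 1] (inj _ (by decide))).1 (s4 ha0 ha1)
  have I5 := (key ![0, 2, 8, 1] (inj _ (by decide))).1 (s5 ha0 ha1)
  have I6 := (key ![0, 3, 5, 4] (inj _ (by decide))).1 (s6 ha1)
  have I7 := (key ![0, 7, 8, 4] (inj _ (by decide))).1 (s7 ha0)
  have I8 := (key ![0, 5, 7, 2] (inj _ (by decide))).1 (s8 ha1)
  have I9 := (key ![0, 1, 6, 9] (inj _ (by decide))).1 (s9 ha0 ha1)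
  have D1 := mt (key ![0, 1, 2, 3] (inj _ (by decide))).2 (t1 ha1)
  have D2 := mt (key ![0, 4, 5, 6] (inj _ (by decide))).2 (t2 ha1)
  have D3 := mt (key ![0, 1, 7, 5] (inj _ (by decide))).2 (t3 ha0)
  have D4 := mt (key ![0, 2, 4, 7] (inj _ (by decide))).2 t4
  have D5 := mt (key ![0, 2, 6, 8] (inj _ (by decide))).2 t5
  have D6 := mt (key ![0, 3, 5, 8] (inj _ (by decide))).2 t6
  have D7 := mt (key ![0, 3, 4, 9] (inj _ (by decide))).2 t7
  have D8 := mt (key ![0, 7, 8, 9] (inj _ (by decide))).2 (t8 ha0)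
  exact pappus I1 I2.abc I3.abc I4.abc I5.abc I6.abc I6.abd I7.abc I8.abc
    D1 D2 D3 D4 D5 D6 D7 D8 I9

end Pool.Agent.Results.MP_188fab_co.QuadricsNonPappus
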